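import Pool.Agent.H29.FL4.Stmts

set_option autoImplicit false

open Matrix

namespace Pool.FL4

open Pool.FLT

theorem fb4 : FB4Stmt := by
  obtain ⟨c0, hc0, hgap⟩ := gap 4 (by norm_num)
  obtain ⟨C, hC, hcnt⟩ := cnt 3 c0 hc0
  refine ⟨16 * C, by positivity, ?_⟩
  intro g0 ρ hρ
  obtain ⟨L, hL⟩ := sub 4 g0
  obtain ⟨hfin, hcard⟩ := hcnt (aa 4) (frk 4 (by norm_num)) {x | x ∈ Lam g0 ∧ ‖x‖ ≤ ρ} ρ hρ
    (fun x hx => hx.2) (by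
    intro x hx y hy hxy
    rw [dist_eq_norm]
    have hxL : x ∈ L := by
      rw [← SetLike.mem_coe, hL]; exact hx.1
    have hyL : y ∈ L := by
      rw [← SetLike.mem_coe, hL]; exact hy.1
    have hxyL : x - y ∈ Lam g0 := by
      rw [← hL]; exact L.sub_mem hxL hyL
    exact hgap g0 (x - y) hxyL (sub_ne_zero.2 hxy))
  set S : Set (aa 4) := {x | x ∈ Lam g0 ∧ ‖x‖ ≤ ρ} with hS
  set f : aa 4 × (Fin 4 → Bool) → (Fin 4 → ℝ) :=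
    fun p j => H2FIB.sg (p.2 j) * Real.exp (co p.1 j) with hf
  have hsub : {d : Fin 4 → ℝ | ∃ x ∈ Lam g0, ‖x‖ ≤ ρ ∧ ∀ j, |d j| = Real.exp (co x j)} ⊆
      f '' (S ×ˢ (Set.univ : Set (Fin 4 → Bool))) := by
    rintro d ⟨x, hx, hxρ, hd⟩
    refine ⟨(x, fun j => decide (d j < 0)), ⟨⟨hx, hxρ⟩, Set.mem_univ _⟩, ?_⟩
    funext j
    exact H2FIB.sg_spec _ _ (hd j)
  have hfin2 : (S ×ˢ (Set.univ : Set (Fin 4 → Bool))).Finite := hfin.prod Set.finite_univ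
  have hfin3 : (f '' (S ×ˢ (Set.univ : Set (Fin 4 → Bool)))).Finite := hfin2.image _
  refine ⟨hfin3.subset hsub, ?_⟩
  have hc1 : {d : Fin 4 → ℝ | ∃ x ∈ Lam g0, ‖x‖ ≤ ρ ∧ ∀ j, |d j| = Real.exp (co x j)}.ncard ≤
      S.ncard * 16 := by
    calc {d : Fin 4 → ℝ | ∃ x ∈ Lam g0, ‖x‖ ≤ ρ ∧ ∀ j, |d j| = Real.exp (co x j)}.ncard ≤
          (f '' (S ×ˢ (Set.univ : Set (Fin 4 → Bool)))).ncard := Set.ncard_le_ncard hsub hfin3
      _ ≤ (S ×ˢ (Set.univ : Set (Fin 4 → Bool))).ncard := Set.ncard_image_le hfin2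
      _ = S.ncard * 16 := by
          rw [Set.ncard_prod, Set.ncard_univ, Nat.card_eq_fintype_card, Fintype.card_fun,
            Fintype.card_bool, Fintype.card_fin]
          norm_num
  have hc2 : ({d : Fin 4 → ℝ | ∃ x ∈ Lam g0, ‖x‖ ≤ ρ ∧
      ∀ j, |d j| = Real.exp (co x j)}.ncard : ℝ) ≤ (S.ncard : ℝ) * 16 := by exact_mod_cast hc1
  refine hc2.trans ?_
  calc (S.ncard : ℝ) * 16 ≤ (C * ρ ^ 3) * 16 := mul_le_mul_of_nonneg_right hcard (by norm_num)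
    _ = 16 * C * ρ ^ 3 := by ring

end Pool.FL4
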